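import Mathlib
import Pool.Agent.Q205.RP.Tilt

/-!
# The `3x+d` map with its argument perturbed by a number in `{0, …, 5}`

Transfer of `Pool.Agent.Q205.RP.Six` and of `closed_lw` from `3x+1` to `3x+d`.
-/

set_option autoImplicit false

open MeasureTheory Finset Filter Topology

namespace Pool.Agent.Q247.RD

open Pool.Agent.Q205.RP

/-- the parameter is odd -/
class OddI (ϑ : ℤ) : Prop where
  odd : ϑ % 2 = 1

/-- the `3x+ϑ` map with six letters -/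
def Gd (ϑ : ℤ) (x : ℤ) (c : Fin 6) : ℤ := tab 3 ϑ (x + ((c : ℕ) : ℤ))

/-- the constant in the recursion -/
noncomputable def kk (ϑ : ℤ) : ℝ := 32 + 2 * |(ϑ : ℝ)|

theorem kk_ge (ϑ : ℤ) : 32 ≤ kk ϑ := by
  unfold kk
  have := abs_nonneg (ϑ : ℝ)
  linarith

theorem kk_pos (ϑ : ℤ) : 0 < kk ϑ := by linarith [kk_ge ϑ]

variable {ϑ : ℤ} [OddI ϑ]

theorem two_Gd_even {ϑ : ℤ} {x : ℤ} {c : Fin 6} (h : (x + ((c : ℕ) : ℤ)) % 2 = 0) :
    2 * Gd ϑ x c = x + ((c : ℕ) : ℤ) := by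
  unfold Gd tab
  rw [if_pos h]
  omega

theorem two_Gd_odd {x : ℤ} {c : Fin 6} (h : ¬ (x + ((c : ℕ) : ℤ)) % 2 = 0) :
    2 * Gd ϑ x c = 3 * (x + ((c : ℕ) : ℤ)) + ϑ := by
  have ho := OddI.odd (ϑ := ϑ)
  unfold Gd tab
  rw [if_neg h]
  omega

theorem even_size {ϑ : ℤ} {x : ℤ} {c : Fin 6} (h : (x + ((c : ℕ) : ℤ)) % 2 = 0) :
    |(|(Gd ϑ x c : ℝ)| - 1 / 2 * |(x : ℝ)|)| ≤ 8 + |(ϑ : ℝ)| := by
  have h1 := two_Gd_even (ϑ := ϑ) h
  have h2 : (2 : ℝ) * (Gd ϑ x c : ℝ) = x + ((c : ℕ) : ℝ) := by exact_mod_cast h1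
  obtain ⟨hc0, hc1⟩ := letter_bounds c
  have h3 : 1 / 2 * |(x : ℝ)| = |(x : ℝ) / 2| := by
    rw [abs_div, abs_of_pos (show (0 : ℝ) < 2 by norm_num)]
    ring
  rw [h3]
  refine (abs_abs_sub_abs_le _ _).trans ?_
  have h4 := abs_nonneg (ϑ : ℝ)
  rw [abs_le]
  constructor <;> linarith

theorem odd_size {x : ℤ} {c : Fin 6} (h : ¬ (x + ((c : ℕ) : ℤ)) % 2 = 0) :
    |(|(Gd ϑ x c : ℝ)| - 3 / 2 * |(x : ℝ)|)| ≤ 8 + |(ϑ : ℝ)| := by
  have h1 := two_Gd_odd (ϑ := ϑ) h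
  have h2 : (2 : ℝ) * (Gd ϑ x c : ℝ) = 3 * (x + ((c : ℕ) : ℝ)) + ϑ := by exact_mod_cast h1
  obtain ⟨hc0, hc1⟩ := letter_bounds c
  have h3 : 3 / 2 * |(x : ℝ)| = |3 / 2 * (x : ℝ)| := by
    rw [abs_mul, abs_of_pos (show (0 : ℝ) < 3 / 2 by norm_num)]
  rw [h3]
  refine (abs_abs_sub_abs_le _ _).trans ?_
  have h4 := le_abs_self (ϑ : ℝ)
  have h5 := neg_abs_le (ϑ : ℝ)
  rw [abs_le]
  constructor <;> linarith

/-- **Drift** for the six letter model. -/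
theorem drift6 {l₀ l₁ : ℝ} (h₀ : 0 < l₀) (h₁ : 0 < l₁) (s κ : ℝ)
    (hκ : 3 * (l₀ * (1 / 2) ^ s + l₁ * (3 / 2) ^ s) < κ) :
    ∃ N : ℕ, ∀ x : ℤ, (N : ℤ) < |x| → ∑ c, chi6 l₀ l₁ x c * VV s (Gd ϑ x c) ≤ κ * VV s x := by
  have hϑ := abs_nonneg (ϑ : ℝ)
  set b : ℝ := 8 + |(ϑ : ℝ)| with hb
  set F : ℝ → ℝ → ℝ := fun a t => max (((1 + a * t + b) / (1 + t)) ^ s)
      (((1 + a * t + (-b)) / (1 + t)) ^ s) with hF
  have hT : ∀ a : ℝ, 0 < a → Tendsto (F a) atTop (𝓝 (a ^ s)) := by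
    intro a ha
    have := (tends_ratio ha b s).max (tends_ratio ha (-b) s)
    rwa [max_self] at this
  have h1 : Tendsto (fun t : ℝ => 3 * (l₀ * F (1 / 2) t) + 3 * (l₁ * F (3 / 2) t)) atTop
      (𝓝 (3 * (l₀ * (1 / 2) ^ s) + 3 * (l₁ * (3 / 2) ^ s))) :=
    (((hT _ (by norm_num)).const_mul l₀).const_mul 3).add
      (((hT _ (by norm_num)).const_mul l₁).const_mul 3)
  have h2 := h1.eventually (gt_mem_nhds (show 3 * (l₀ * (1 / 2) ^ s) + 3 * (l₁ * (3 / 2) ^ s) < κ by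
    linarith))
  obtain ⟨t₀, ht₀⟩ := eventually_atTop.1 (h2.and (eventually_gt_atTop (20 + 4 * |(ϑ : ℝ)|)))
  refine ⟨⌈t₀⌉₊, fun x hx => ?_⟩
  have hxR : t₀ ≤ |(x : ℝ)| := by
    have h4 : t₀ ≤ (⌈t₀⌉₊ : ℝ) := Nat.le_ceil _
    have h5 : ((⌈t₀⌉₊ : ℤ) : ℝ) < ((|x| : ℤ) : ℝ) := by exact_mod_cast hx
    push_cast at h5
    linarith
  obtain ⟨h4, h6⟩ := ht₀ _ hxR
  have h10 : (0 : ℝ) < 1 + |(x : ℝ)| := by positivity
  have key : ∀ (a : ℝ) (y : ℤ), 1 / 2 ≤ a → |(|(y : ℝ)| - a * |(x : ℝ)|)| ≤ b →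
      VV s y ≤ F a |(x : ℝ)| * VV s x := by
    intro a y ha hy
    have h8 := abs_le.1 hy
    have h9 : 0 < 1 + a * |(x : ℝ)| + (-b) := by nlinarith
    rw [hF]
    simp only
    rw [max_mul_of_nonneg _ _ (VV_pos s x).le]
    rcases le_total 0 s with hs | hs
    · apply le_max_of_le_left
      unfold VV
      rw [← Real.mul_rpow (div_nonneg (by linarith) h10.le) h10.le, div_mul_cancel₀ _ h10.ne']
      apply Real.rpow_le_rpow (by positivity) _ hs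
      linarith
    · apply le_max_of_le_right
      unfold VV
      rw [← Real.mul_rpow (div_nonneg h9.le h10.le) h10.le, div_mul_cancel₀ _ h10.ne']
      apply Real.rpow_le_rpow_of_nonpos h9 _ hs
      linarith
  calc ∑ c, chi6 l₀ l₁ x c * VV s (Gd ϑ x c)
      ≤ ∑ c : Fin 6, (if (x + ((c : ℕ) : ℤ)) % 2 = 0 then l₀ * F (1 / 2) |(x : ℝ)|
          else l₁ * F (3 / 2) |(x : ℝ)|) * VV s x := by
        apply Finset.sum_le_sum
        intro c _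
        unfold chi6
        split_ifs with h
        · rw [mul_assoc]
          exact mul_le_mul_of_nonneg_left (key _ _ le_rfl (even_size h)) h₀.le
        · rw [mul_assoc]
          exact mul_le_mul_of_nonneg_left (key _ _ (by norm_num) (odd_size h)) h₁.le
    _ = (3 * (l₀ * F (1 / 2) |(x : ℝ)|) + 3 * (l₁ * F (3 / 2) |(x : ℝ)|)) * VV s x := by
        rw [← Finset.sum_mul, sum_parity]
    _ ≤ κ * VV s x := mul_le_mul_of_nonneg_right h4.le (VV_pos s x).le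

/-- the same without weights -/
theorem drift6' (s κ : ℝ) (hκ : 3 * ((1 / 2) ^ s + (3 / 2) ^ s) < κ) :
    ∃ N : ℕ, ∀ x : ℤ, (N : ℤ) < |x| → ∑ c, VV s (Gd ϑ x c) ≤ κ * VV s x := by
  obtain ⟨N, hN⟩ := drift6 (ϑ := ϑ) one_pos one_pos s κ (by linarith)
  refine ⟨N, fun x hx => ?_⟩
  refine le_trans (le_of_eq ?_) (hN x hx)
  apply Finset.sum_congr rfl
  intro c _
  unfold chi6
  split_ifs <;> ring

theorem rec_Gd : Rec (Gd ϑ) 2 3 1 (kk ϑ) := by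
  intro x c
  obtain ⟨hc0, hc1⟩ := letter_bounds c
  have hϑ := abs_nonneg (ϑ : ℝ)
  by_cases h : (x + ((c : ℕ) : ℤ)) % 2 = 0
  · refine ⟨0, ((c : ℕ) : ℤ), ?_, by norm_num, ?_⟩
    · push_cast
      rw [two_Gd_even h]
      ring
    · unfold kk
      push_cast
      rw [abs_of_nonneg hc0]
      linarith
  · refine ⟨1, 3 * ((c : ℕ) : ℤ) + ϑ, ?_, le_rfl, ?_⟩
    · push_cast
      rw [two_Gd_odd h]
      ring
    · unfold kk
      push_cast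
      refine (abs_add_le _ _).trans ?_
      rw [abs_of_nonneg (show (0 : ℝ) ≤ 3 * ((c : ℕ) : ℝ) by positivity)]
      linarith

/-- `2 ^ k` times the end of a path is `3 ^ e` times its start, up to `k 3 ^ k` times a constant -/
theorem run_expand6 (w : List (Fin 6)) (x : ℤ) :
    ∃ e : ℕ, |(2 : ℝ) ^ w.length * (run (Gd ϑ) x w : ℝ) - (3 : ℝ) ^ e * (x : ℝ)| ≤
        w.length * kk ϑ * 3 ^ w.length := by
  have key : ∀ (w : List (Fin 6)) (x : ℤ), ∃ e : ℕ, e ≤ w.length ∧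
      |(2 : ℝ) ^ w.length * (run (Gd ϑ) x w : ℝ) - (3 : ℝ) ^ e * (x : ℝ)| ≤
        w.length * kk ϑ * 3 ^ w.length := by
    intro w
    induction w with
    | nil => intro x; exact ⟨0, le_rfl, by simp [run]⟩
    | cons c w ih =>
      intro x
      obtain ⟨e₁, r, h1, h2, h3⟩ := rec_Gd (ϑ := ϑ) x c
      obtain ⟨e₂, h4, h5⟩ := ih (Gd ϑ x c)
      refine ⟨e₂ + e₁, by simp only [List.length_cons]; omega, ?_⟩
      have h6 : (2 : ℝ) * (Gd ϑ x c : ℝ) = 3 ^ e₁ * x + r := by exact_mod_cast h1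
      have hrun : run (Gd ϑ) x (c :: w) = run (Gd ϑ) (Gd ϑ x c) w := rfl
      rw [hrun, List.length_cons]
      have h7 : (2 : ℝ) ^ (w.length + 1) * (run (Gd ϑ) (Gd ϑ x c) w : ℝ) -
          (3 : ℝ) ^ (e₂ + e₁) * x =
          2 * ((2 : ℝ) ^ w.length * (run (Gd ϑ) (Gd ϑ x c) w : ℝ) - 3 ^ e₂ * (Gd ϑ x c : ℝ)) +
            3 ^ e₂ * r := by
        have : (3 : ℝ) ^ e₁ * x = 2 * (Gd ϑ x c : ℝ) - r := by linarith
        have h8 : (3 : ℝ) ^ (e₂ + e₁) * x = 3 ^ e₂ * (2 * (Gd ϑ x c : ℝ) - r) := by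
          rw [← this, pow_add]
          ring
        rw [h8, pow_succ]
        ring
      rw [h7]
      refine (abs_add_le _ _).trans ?_
      rw [abs_mul, abs_mul, abs_of_pos (show (0 : ℝ) < 2 by norm_num),
        abs_of_pos (show (0 : ℝ) < 3 ^ e₂ by positivity)]
      have h8 : (3 : ℝ) ^ e₂ * |(r : ℝ)| ≤ 3 ^ w.length * kk ϑ :=
        mul_le_mul (pow_le_pow_right₀ (by norm_num) h4) h3 (abs_nonneg _) (by positivity)
      have h9 : (0 : ℝ) < 3 ^ w.length := by positivity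
      have h10 : 0 < 3 ^ w.length * kk ϑ := mul_pos h9 (kk_pos ϑ)
      have h11 : 0 ≤ (w.length : ℝ) * kk ϑ * 3 ^ w.length := by
        have := kk_pos ϑ
        positivity
      push_cast
      rw [pow_succ]
      calc 2 * |(2 : ℝ) ^ w.length * (run (Gd ϑ) (Gd ϑ x c) w : ℝ) - 3 ^ e₂ * (Gd ϑ x c : ℝ)| +
            3 ^ e₂ * |(r : ℝ)| ≤ 2 * (w.length * kk ϑ * 3 ^ w.length) + 3 ^ w.length * kk ϑ := by
            linarith
        _ ≤ (w.length * kk ϑ * 3 ^ w.length) * 3 + 3 * (3 ^ w.length * kk ϑ) := by linarith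
        _ = _ := by ring
  obtain ⟨e, _, h⟩ := key w x
  exact ⟨e, h⟩

/-- a closed path of length `k ≥ 1` starts at a point of absolute value at most `(6 kk) ^ k` -/
theorem closed_len6 (x : ℤ) (w : List (Fin 6)) (hw : w ≠ []) (hrun : run (Gd ϑ) x w = x) :
    |(x : ℝ)| ≤ (6 * kk ϑ) ^ w.length := by
  obtain ⟨e, he⟩ := run_expand6 (ϑ := ϑ) w x
  rw [hrun] at he
  have hk1 : 1 ≤ w.length := List.length_pos_iff.2 hw
  have hne : ((2 : ℤ) ^ w.length - 3 ^ e) ≠ 0 := by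
    intro h
    have h3 : (2 : ℤ) ∣ 3 ^ e := by
      have : (3 : ℤ) ^ e = 2 ^ w.length := by linarith
      rw [this]
      exact dvd_pow_self _ (by omega)
    have h4 := Int.prime_two.dvd_of_dvd_pow h3
    omega
  have h3 : (1 : ℝ) ≤ |((2 : ℝ) ^ w.length - 3 ^ e)| := by
    have : (1 : ℤ) ≤ |(2 : ℤ) ^ w.length - 3 ^ e| := Int.one_le_abs hne
    exact_mod_cast this
  have h4 : |(2 : ℝ) ^ w.length * x - 3 ^ e * x| = |((2 : ℝ) ^ w.length - 3 ^ e)| * |(x : ℝ)| := by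
    rw [← sub_mul, abs_mul]
  rw [h4] at he
  have h5 : |(x : ℝ)| ≤ w.length * kk ϑ * 3 ^ w.length := by
    have := le_mul_of_one_le_left (abs_nonneg (x : ℝ)) h3
    linarith
  refine h5.trans ?_
  have h6 : (w.length : ℝ) ≤ 2 ^ w.length := by exact_mod_cast (Nat.lt_two_pow_self (n := w.length)).le
  have hk := kk_ge ϑ
  have h7 : kk ϑ ≤ kk ϑ ^ w.length := by
    calc kk ϑ = kk ϑ ^ 1 := (pow_one _).symm
      _ ≤ kk ϑ ^ w.length := pow_le_pow_right₀ (by linarith) hk1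
  have h8 : (6 * kk ϑ) ^ w.length = 2 ^ w.length * kk ϑ ^ w.length * 3 ^ w.length := by
    rw [← mul_pow, ← mul_pow]
    congr 1
    ring
  rw [h8]
  apply mul_le_mul_of_nonneg_right _ (by positivity)
  exact mul_le_mul h6 h7 (kk_pos ϑ).le (by positivity)

/-- closed paths of length `m` at a place of absolute value at least `M` -/
theorem closed_lw (χ : ℤ → Fin 6 → ℝ) (hχ : ∀ x c, 0 < χ x c) {s κ τ M : ℝ}
    (hκ : 0 < κ) (hτ : 0 ≤ τ) (hM : 0 < M) (N : ℕ)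
    (h : ∀ x : ℤ, (N : ℤ) < |x| → ∑ c, χ x c * VV s (Gd ϑ x c) ≤ κ * VV s x) (m : ℕ) (hm : 1 ≤ m)
    (y : ℤ) (hy : M ≤ |(y : ℝ)|) (Q : List (Fin 6) → Prop) [DecidablePred Q]
    (hQ : ∀ w, Q w → ∀ s ∈ sites (Gd ϑ) y w, (N : ℤ) < |s|)
    (hQ' : ∀ w, Q w → run (Gd ϑ) y w = y) :
    ∑ w ∈ (wd 6 m).filter Q, lw (Gd ϑ) χ y w ≤ (κ * (6 * kk ϑ) ^ τ) ^ m * M ^ (-τ) := by
  have hk : 0 < 6 * kk ϑ := by linarith [kk_pos ϑ]
  rcases Finset.eq_empty_or_nonempty ((wd 6 m).filter Q) with h0 | ⟨w₀, hw₀⟩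
  · rw [h0, Finset.sum_empty]
    positivity
  · rw [mem_filter] at hw₀
    have hlen := mem_wd.1 hw₀.1
    have h6 := closed_len6 y w₀ (by
      intro h
      rw [h] at hlen
      simp at hlen
      omega) (hQ' w₀ hw₀.2)
    rw [hlen] at h6
    have h1 := good_sum_lw (Gd ϑ) χ hχ (VV s) hκ (VV_pos s) (fun y => (N : ℤ) < |y|) h m y Q hQ
    have h2 : ∑ w ∈ (wd 6 m).filter Q, lw (Gd ϑ) χ y w * VV s (run (Gd ϑ) y w) =
        (∑ w ∈ (wd 6 m).filter Q, lw (Gd ϑ) χ y w) * VV s y := by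
      rw [Finset.sum_mul]
      apply Finset.sum_congr rfl
      intro w hw
      rw [hQ' w (mem_filter.1 hw).2]
    rw [h2] at h1
    have h3 := le_of_mul_le_mul_right h1 (VV_pos s y)
    have h4 : (1 : ℝ) ≤ ((6 * kk ϑ) ^ m) ^ τ * M ^ (-τ) := by
      rw [Real.rpow_neg hM.le, ← div_eq_mul_inv, le_div_iff₀ (by positivity), one_mul]
      exact Real.rpow_le_rpow hM.le (hy.trans h6) hτ
    have h5 : ((6 * kk ϑ) ^ m) ^ τ = ((6 * kk ϑ) ^ τ) ^ m := by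
      rw [← Real.rpow_natCast, ← Real.rpow_natCast, ← Real.rpow_mul hk.le,
        ← Real.rpow_mul hk.le, mul_comm (m : ℝ) τ]
    calc _ ≤ κ ^ m := h3
      _ = κ ^ m * 1 := (mul_one _).symm
      _ ≤ κ ^ m * (((6 * kk ϑ) ^ m) ^ τ * M ^ (-τ)) := mul_le_mul_of_nonneg_left h4 (by positivity)
      _ = _ := by rw [h5, mul_pow]; ring

end Pool.Agent.Q247.RD
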