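import Mathlib
import Pool.Agent.Q247.RD.Six

/-!
# Counting the paths that arrive at a given place
-/

set_option autoImplicit false

open MeasureTheory Finset Filter Topology

namespace Pool.Agent.Q247.RD

open Pool.Agent.Q205.RP

variable {ϑ : ℤ} [OddI ϑ]

/-- weights of the classes modulo `3` -/
noncomputable def psi (ϑ : ℤ) (s : ℝ) (x : ℤ) : ℝ :=
  (1 / 2) ^ s + (if (2 * x - ϑ) % 3 = 0 then (3 / 2) ^ s else 0)

theorem psi_pos {ϑ : ℤ} (s : ℝ) (x : ℤ) : 0 < psi ϑ s x := by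
  unfold psi
  have h1 : (0 : ℝ) < (1 / 2) ^ s := by positivity
  have h2 : (0 : ℝ) < (3 / 2) ^ s := by positivity
  split_ifs <;> linarith

theorem psi_ge {ϑ : ℤ} (s : ℝ) (x : ℤ) : (1 / 2) ^ s ≤ psi ϑ s x := by
  unfold psi
  have h2 : (0 : ℝ) < (3 / 2) ^ s := by positivity
  split_ifs <;> linarith

theorem psi_le {ϑ : ℤ} (s : ℝ) (x : ℤ) : psi ϑ s x ≤ (1 / 2) ^ s + (3 / 2) ^ s := by
  unfold psi
  have h2 : (0 : ℝ) < (3 / 2) ^ s := by positivity
  split_ifs <;> linarith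

noncomputable def gB (ϑ : ℤ) (s : ℝ) (x : ℤ) : ℝ := VV (-s) x * psi ϑ s x

theorem gB_pos {ϑ : ℤ} (s : ℝ) (x : ℤ) : 0 < gB ϑ s x := mul_pos (VV_pos _ _) (psi_pos _ _)

/-- six consecutive integers meet each class modulo `3` twice -/
theorem sum_psi {ϑ : ℤ} (s : ℝ) (z : ℤ) :
    ∑ c : Fin 6, psi ϑ s (z - ((c : ℕ) : ℤ)) = 6 * ((1 / 2) ^ s + 1 / 3 * (3 / 2) ^ s) := by
  have v0 : (((0 : Fin 6) : ℕ) : ℤ) = 0 := rfl
  have v1 : (((1 : Fin 6) : ℕ) : ℤ) = 1 := rfl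
  have v2 : (((2 : Fin 6) : ℕ) : ℤ) = 2 := rfl
  have v3 : (((3 : Fin 6) : ℕ) : ℤ) = 3 := rfl
  have v4 : (((4 : Fin 6) : ℕ) : ℤ) = 4 := rfl
  have v5 : (((5 : Fin 6) : ℕ) : ℤ) = 5 := rfl
  rw [Fin.sum_univ_six, v0, v1, v2, v3, v4, v5]
  unfold psi
  have h : (2 * z - ϑ) % 3 = 0 ∨ (2 * z - ϑ) % 3 = 1 ∨ (2 * z - ϑ) % 3 = 2 := by omega
  rcases h with h | h | h
  · rw [if_pos (by omega : (2 * (z - 0) - ϑ) % 3 = 0),
      if_neg (by omega : ¬ (2 * (z - 1) - ϑ) % 3 = 0),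
      if_neg (by omega : ¬ (2 * (z - 2) - ϑ) % 3 = 0),
      if_pos (by omega : (2 * (z - 3) - ϑ) % 3 = 0),
      if_neg (by omega : ¬ (2 * (z - 4) - ϑ) % 3 = 0),
      if_neg (by omega : ¬ (2 * (z - 5) - ϑ) % 3 = 0)]
    ring
  · rw [if_neg (by omega : ¬ (2 * (z - 0) - ϑ) % 3 = 0),
      if_neg (by omega : ¬ (2 * (z - 1) - ϑ) % 3 = 0),
      if_pos (by omega : (2 * (z - 2) - ϑ) % 3 = 0),
      if_neg (by omega : ¬ (2 * (z - 3) - ϑ) % 3 = 0),
      if_neg (by omega : ¬ (2 * (z - 4) - ϑ) % 3 = 0),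
      if_pos (by omega : (2 * (z - 5) - ϑ) % 3 = 0)]
    ring
  · rw [if_neg (by omega : ¬ (2 * (z - 0) - ϑ) % 3 = 0),
      if_pos (by omega : (2 * (z - 1) - ϑ) % 3 = 0),
      if_neg (by omega : ¬ (2 * (z - 2) - ϑ) % 3 = 0),
      if_neg (by omega : ¬ (2 * (z - 3) - ϑ) % 3 = 0),
      if_pos (by omega : (2 * (z - 4) - ϑ) % 3 = 0),
      if_neg (by omega : ¬ (2 * (z - 5) - ϑ) % 3 = 0)]
    ring

/-- the places from which `y` is reached in one step with the letter `c` -/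
theorem pre_cases {n y : ℤ} {c : Fin 6} (h : Gd ϑ n c = y) :
    n = 2 * y - ((c : ℕ) : ℤ) ∨ ((2 * y - ϑ) % 3 = 0 ∧ n = (2 * y - ϑ) / 3 - ((c : ℕ) : ℤ)) := by
  by_cases hp : (n + ((c : ℕ) : ℤ)) % 2 = 0
  · left
    have := two_Gd_even (ϑ := ϑ) hp
    omega
  · right
    have := two_Gd_odd (ϑ := ϑ) hp
    omega

/-- **One step backwards.** -/
theorem back_step {s lam : ℝ} (hs : 0 < s) (hl : (1 / 2) ^ s + 1 / 3 * (3 / 2) ^ s < lam) :
    ∃ M : ℕ, ∀ y : ℤ, (M : ℤ) ≤ |y| → ∀ F : Finset ℤ,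
      ∑ n ∈ F, ∑ c : Fin 6, (if Gd ϑ n c = y then gB ϑ s n else 0) ≤ 6 * lam * gB ϑ s y := by
  set l₀ : ℝ := (1 / 2) ^ s + 1 / 3 * (3 / 2) ^ s with hl₀
  have hA : (0 : ℝ) < (1 / 2) ^ s := by positivity
  have hB : (0 : ℝ) < (3 / 2) ^ s := by positivity
  have hl₀0 : 0 < l₀ := by positivity
  have e1 : (2 : ℝ) ^ (-s) = (1 / 2) ^ s := by
    rw [Real.rpow_neg (by norm_num), ← Real.inv_rpow (by norm_num)]
    norm_num
  have e2 : (2 / 3 : ℝ) ^ (-s) = (3 / 2) ^ s := by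
    rw [Real.rpow_neg (by norm_num), ← Real.inv_rpow (by norm_num)]
    norm_num
  have hϑ := abs_nonneg (ϑ : ℝ)
  have t1 := tends_ratio (a := 2) (by norm_num) (-5) (-s)
  have t2 := tends_ratio (a := 2 / 3) (by norm_num) (-(6 + |(ϑ : ℝ)|)) (-s)
  rw [e1] at t1
  rw [e2] at t2
  have c1 : Tendsto (fun t : ℝ => ((1 + 2 * t + (-5)) / (1 + t)) ^ (-s) * l₀) atTop
      (𝓝 ((1 / 2) ^ s * l₀)) := t1.mul_const _
  have c2 : Tendsto (fun t : ℝ => (((1 + 2 * t + (-5)) / (1 + t)) ^ (-s) +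
      ((1 + 2 / 3 * t + (-(6 + |(ϑ : ℝ)|))) / (1 + t)) ^ (-s)) * l₀) atTop
      (𝓝 (((1 / 2) ^ s + (3 / 2) ^ s) * l₀)) := (t1.add t2).mul_const _
  have d1 := c1.eventually (gt_mem_nhds (show (1 / 2) ^ s * l₀ < lam * (1 / 2) ^ s by nlinarith))
  have d2 := c2.eventually (gt_mem_nhds (show ((1 / 2) ^ s + (3 / 2) ^ s) * l₀ <
    lam * ((1 / 2) ^ s + (3 / 2) ^ s) by nlinarith))
  obtain ⟨t₀, ht₀⟩ := eventually_atTop.1 ((d1.and d2).and (eventually_gt_atTop (20 + 4 * |(ϑ : ℝ)|)))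
  refine ⟨⌈t₀⌉₊, fun y hy F => ?_⟩
  have hyR : t₀ ≤ |(y : ℝ)| := by
    have h4 : t₀ ≤ (⌈t₀⌉₊ : ℝ) := Nat.le_ceil _
    have h5 : ((⌈t₀⌉₊ : ℤ) : ℝ) ≤ ((|y| : ℤ) : ℝ) := by exact_mod_cast hy
    push_cast at h5
    linarith
  obtain ⟨⟨h1, h2⟩, h3⟩ := ht₀ _ hyR
  set t := |(y : ℝ)| with ht
  have h10 : (0 : ℝ) < 1 + t := by linarith
  set Φ₁ : ℝ := ((1 + 2 * t + (-5)) / (1 + t)) ^ (-s) with hΦ₁
  set Φ₂ : ℝ := ((1 + 2 / 3 * t + (-(6 + |(ϑ : ℝ)|))) / (1 + t)) ^ (-s) with hΦ₂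
  have hΦ₁0 : 0 < Φ₁ := by
    rw [hΦ₁]
    apply Real.rpow_pos_of_pos
    apply div_pos _ h10
    linarith
  have hΦ₂0 : 0 < Φ₂ := by
    rw [hΦ₂]
    apply Real.rpow_pos_of_pos
    apply div_pos _ h10
    linarith
  have hV := VV_pos (-s) y
  -- sizes
  have s1 : ∀ c : Fin 6, VV (-s) (2 * y - ((c : ℕ) : ℤ)) ≤ Φ₁ * VV (-s) y := by
    intro c
    obtain ⟨hc0, hc1⟩ := letter_bounds c
    have h5 : 2 * t - 5 ≤ |((2 * y - ((c : ℕ) : ℤ) : ℤ) : ℝ)| := by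
      push_cast
      have := abs_sub_abs_le_abs_sub (2 * (y : ℝ)) ((c : ℕ) : ℝ)
      rw [abs_mul, abs_of_pos (show (0 : ℝ) < 2 by norm_num), ← ht, abs_of_nonneg hc0] at this
      linarith
    rw [hΦ₁]
    unfold VV
    rw [← ht, ← Real.mul_rpow (div_nonneg (by linarith) h10.le) h10.le,
      div_mul_cancel₀ _ h10.ne']
    apply Real.rpow_le_rpow_of_nonpos (by linarith) _ (by linarith)
    linarith
  have s2 : (2 * y - ϑ) % 3 = 0 → ∀ c : Fin 6, VV (-s) ((2 * y - ϑ) / 3 - ((c : ℕ) : ℤ)) ≤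
      Φ₂ * VV (-s) y := by
    intro hy3 c
    obtain ⟨hc0, hc1⟩ := letter_bounds c
    have h4 : (3 : ℝ) * (((2 * y - ϑ) / 3 : ℤ) : ℝ) = 2 * y - ϑ := by
      have : 3 * ((2 * y - ϑ) / 3) = 2 * y - ϑ := by omega
      exact_mod_cast this
    have h5 : 2 / 3 * t - (6 + |(ϑ : ℝ)|) ≤ |(((2 * y - ϑ) / 3 - ((c : ℕ) : ℤ) : ℤ) : ℝ)| := by
      push_cast
      have h6 : (((2 * y - ϑ) / 3 : ℤ) : ℝ) - ((c : ℕ) : ℝ) =
          2 / 3 * (y : ℝ) - ((ϑ : ℝ) / 3 + ((c : ℕ) : ℝ)) := by linarith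
      rw [h6]
      have := abs_sub_abs_le_abs_sub (2 / 3 * (y : ℝ)) ((ϑ : ℝ) / 3 + ((c : ℕ) : ℝ))
      rw [abs_mul, abs_of_pos (show (0 : ℝ) < 2 / 3 by norm_num), ← ht] at this
      have h7 := abs_add_le ((ϑ : ℝ) / 3) ((c : ℕ) : ℝ)
      rw [abs_div, abs_of_pos (show (0 : ℝ) < 3 by norm_num), abs_of_nonneg hc0] at h7
      linarith
    rw [hΦ₂]
    unfold VV
    rw [← ht, ← Real.mul_rpow (div_nonneg (by linarith) h10.le) h10.le,
      div_mul_cancel₀ _ h10.ne']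
    apply Real.rpow_le_rpow_of_nonpos (by linarith) _ (by linarith)
    linarith
  -- for each letter
  have hc : ∀ c : Fin 6, ∑ n ∈ F, (if Gd ϑ n c = y then gB ϑ s n else 0) ≤
      gB ϑ s (2 * y - ((c : ℕ) : ℤ)) +
        (if (2 * y - ϑ) % 3 = 0 then gB ϑ s ((2 * y - ϑ) / 3 - ((c : ℕ) : ℤ)) else 0) := by
    intro c
    have h5 : ∀ n ∈ F, (if Gd ϑ n c = y then gB ϑ s n else 0) ≤
        (if n = 2 * y - ((c : ℕ) : ℤ) then gB ϑ s n else 0) +
        (if n = (2 * y - ϑ) / 3 - ((c : ℕ) : ℤ) then (if (2 * y - ϑ) % 3 = 0 then gB ϑ s n else 0) else 0) := by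
      intro n _
      have hg := gB_pos (ϑ := ϑ) s n
      by_cases hG : Gd ϑ n c = y
      · rw [if_pos hG]
        rcases pre_cases hG with h6 | ⟨h6, h7⟩
        · rw [if_pos h6]
          have : 0 ≤ (if n = (2 * y - ϑ) / 3 - ((c : ℕ) : ℤ) then
              (if (2 * y - ϑ) % 3 = 0 then gB ϑ s n else 0) else 0) := by
            split_ifs <;> linarith
          linarith
        · rw [if_pos h7, if_pos h6]
          have : 0 ≤ (if n = 2 * y - ((c : ℕ) : ℤ) then gB ϑ s n else 0) := by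
            split_ifs <;> linarith
          linarith
      · rw [if_neg hG]
        have i1 : 0 ≤ (if n = (2 * y - ϑ) / 3 - ((c : ℕ) : ℤ) then
              (if (2 * y - ϑ) % 3 = 0 then gB ϑ s n else 0) else 0) := by
            split_ifs <;> linarith
        have i2 : 0 ≤ (if n = 2 * y - ((c : ℕ) : ℤ) then gB ϑ s n else 0) := by
            split_ifs <;> linarith
        linarith
    refine (Finset.sum_le_sum h5).trans ?_
    rw [Finset.sum_add_distrib]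
    apply add_le_add
    · rw [Finset.sum_ite_eq' F]
      split_ifs
      · exact le_rfl
      · exact (gB_pos _ _).le
    · rw [Finset.sum_ite_eq' F]
      have := gB_pos (ϑ := ϑ) s ((2 * y - ϑ) / 3 - ((c : ℕ) : ℤ))
      split_ifs <;> linarith
  rw [Finset.sum_comm]
  refine (Finset.sum_le_sum (fun c _ => hc c)).trans ?_
  rw [Finset.sum_add_distrib]
  have u1 : ∑ c : Fin 6, gB ϑ s (2 * y - ((c : ℕ) : ℤ)) ≤ Φ₁ * VV (-s) y * (6 * l₀) := by
    rw [hl₀, ← sum_psi s (2 * y), Finset.mul_sum]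
    apply Finset.sum_le_sum
    intro c _
    exact mul_le_mul_of_nonneg_right (s1 c) (psi_pos _ _).le
  by_cases hy3 : (2 * y - ϑ) % 3 = 0
  · simp only [if_pos hy3]
    have u2 : ∑ c : Fin 6, gB ϑ s ((2 * y - ϑ) / 3 - ((c : ℕ) : ℤ)) ≤
        Φ₂ * VV (-s) y * (6 * l₀) := by
      rw [hl₀, ← sum_psi s ((2 * y - ϑ) / 3), Finset.mul_sum]
      apply Finset.sum_le_sum
      intro c _
      exact mul_le_mul_of_nonneg_right (s2 hy3 c) (psi_pos _ _).le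
    have hpsi : psi ϑ s y = (1 / 2) ^ s + (3 / 2) ^ s := by
      unfold psi
      rw [if_pos hy3]
    unfold gB
    rw [hpsi]
    calc _ ≤ Φ₁ * VV (-s) y * (6 * l₀) + Φ₂ * VV (-s) y * (6 * l₀) := add_le_add u1 u2
      _ = 6 * VV (-s) y * ((Φ₁ + Φ₂) * l₀) := by ring
      _ ≤ 6 * VV (-s) y * (lam * ((1 / 2) ^ s + (3 / 2) ^ s)) :=
          mul_le_mul_of_nonneg_left h2.le (by positivity)
      _ = _ := by ring
  · simp only [if_neg hy3, Finset.sum_const_zero, add_zero]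
    have hpsi : psi ϑ s y = (1 / 2) ^ s := by
      unfold psi
      rw [if_neg hy3, add_zero]
    refine u1.trans ?_
    unfold gB
    rw [hpsi]
    calc _ = 6 * VV (-s) y * (Φ₁ * l₀) := by ring
      _ ≤ 6 * VV (-s) y * (lam * (1 / 2) ^ s) :=
          mul_le_mul_of_nonneg_left h1.le (by positivity)
      _ = _ := by ring

open Classical in
/-- the number of words of length `j` leading from `n` to `v` through places of absolute value
at least `M` -/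
noncomputable def cntB (ϑ : ℤ) (M : ℕ) (j : ℕ) (n v : ℤ) : ℝ :=
  (((wd 6 j).filter (fun u => (∀ s ∈ sites (Gd ϑ) n u, (M : ℤ) ≤ |s|) ∧ run (Gd ϑ) n u = v)).card : ℝ)

theorem cntB_nonneg {ϑ : ℤ} (M j : ℕ) (n v : ℤ) : 0 ≤ cntB ϑ M j n v := Nat.cast_nonneg _

theorem cntB_succ (M j : ℕ) (n v : ℤ) (hv : (M : ℤ) ≤ |v|) :
    cntB ϑ M (j + 1) n v ≤ ∑ c : Fin 6, (if (M : ℤ) ≤ |Gd ϑ n c| then cntB ϑ M j (Gd ϑ n c) v else 0) := by
  classical
  have h1 : cntB ϑ M (j + 1) n v = ∑ c : Fin 6, ∑ u ∈ wd 6 j,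
      (if (∀ s ∈ sites (Gd ϑ) n (c :: u), (M : ℤ) ≤ |s|) ∧ run (Gd ϑ) n (c :: u) = v then (1 : ℝ)
        else 0) := by
    rw [← sum_wd_succ j (fun w => if (∀ s ∈ sites (Gd ϑ) n w, (M : ℤ) ≤ |s|) ∧ run (Gd ϑ) n w = v then
      (1 : ℝ) else 0), Finset.sum_boole]
    unfold cntB
    congr
  rw [h1]
  apply Finset.sum_le_sum
  intro c _
  have key : ∀ u ∈ wd 6 j, (if (∀ s ∈ sites (Gd ϑ) n (c :: u), (M : ℤ) ≤ |s|) ∧
      run (Gd ϑ) n (c :: u) = v then (1 : ℝ) else 0) ≤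
      if (M : ℤ) ≤ |Gd ϑ n c| then (if (∀ s ∈ sites (Gd ϑ) (Gd ϑ n c) u, (M : ℤ) ≤ |s|) ∧
      run (Gd ϑ) (Gd ϑ n c) u = v then (1 : ℝ) else 0) else 0 := by
    intro u _
    by_cases h : (∀ s ∈ sites (Gd ϑ) n (c :: u), (M : ℤ) ≤ |s|) ∧ run (Gd ϑ) n (c :: u) = v
    · rw [if_pos h]
      obtain ⟨h2, h3⟩ := h
      simp only [sites, List.mem_cons, forall_eq_or_imp] at h2
      have hG : (M : ℤ) ≤ |Gd ϑ n c| := by
        cases u with
        | nil =>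
          simp only [run] at h3
          rw [h3]
          exact hv
        | cons a u =>
          apply h2.2
          simp [sites]
      rw [if_pos hG, if_pos ⟨h2.2, h3⟩]
    · rw [if_neg h]
      split_ifs <;> norm_num
  refine (Finset.sum_le_sum key).trans (le_of_eq ?_)
  split_ifs with hG
  · rw [Finset.sum_boole]
    unfold cntB
    congr
  · simp

/-- **Many steps backwards.** -/
theorem back_iter {s lam : ℝ} {M : ℕ} (hlam : 0 < lam)
    (h : ∀ y : ℤ, (M : ℤ) ≤ |y| → ∀ F : Finset ℤ,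
      ∑ n ∈ F, ∑ c : Fin 6, (if Gd ϑ n c = y then gB ϑ s n else 0) ≤ 6 * lam * gB ϑ s y)
    (j : ℕ) (v : ℤ) (hv : (M : ℤ) ≤ |v|) (F : Finset ℤ) :
    ∑ n ∈ F, gB ϑ s n * cntB ϑ M j n v ≤ (6 * lam) ^ j * gB ϑ s v := by
  classical
  induction j generalizing F with
  | zero =>
    have h1 : ∀ n ∈ F, gB ϑ s n * cntB ϑ M 0 n v ≤ if n = v then gB ϑ s n else 0 := by
      intro n _
      unfold cntB
      have hw : wd 6 0 = {[]} := rfl
      by_cases hnv : n = v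
      · rw [if_pos hnv]
        have h2 : (((wd 6 0).filter (fun u => (∀ s ∈ sites (Gd ϑ) n u, (M : ℤ) ≤ |s|) ∧
            run (Gd ϑ) n u = v)).card : ℝ) ≤ 1 := by
          have := Finset.card_filter_le (wd 6 0) (fun u => (∀ s ∈ sites (Gd ϑ) n u, (M : ℤ) ≤ |s|) ∧
            run (Gd ϑ) n u = v)
          rw [card_wd] at this
          exact_mod_cast this
        exact mul_le_of_le_one_right (gB_pos _ _).le h2
      · rw [if_neg hnv]
        apply le_of_eq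
        have h2 : ((wd 6 0).filter (fun u => (∀ s ∈ sites (Gd ϑ) n u, (M : ℤ) ≤ |s|) ∧
            run (Gd ϑ) n u = v)) = ∅ := by
          rw [Finset.filter_eq_empty_iff]
          intro u hu
          rw [hw, Finset.mem_singleton] at hu
          rw [hu]
          simp [run, hnv]
        rw [h2]
        simp
    refine (Finset.sum_le_sum h1).trans ?_
    rw [Finset.sum_ite_eq' F, pow_zero, one_mul]
    split_ifs
    · exact le_rfl
    · exact (gB_pos _ _).le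
  | succ j ih =>
    set Y : Finset ℤ := ((F ×ˢ (Finset.univ : Finset (Fin 6))).image
      (fun p => (Gd ϑ) p.1 p.2)).filter (fun y => (M : ℤ) ≤ |y|) with hY
    have h1 : ∀ n ∈ F, gB ϑ s n * cntB ϑ M (j + 1) n v ≤
        ∑ y ∈ Y, ∑ c : Fin 6, (if Gd ϑ n c = y then gB ϑ s n else 0) * cntB ϑ M j y v := by
      intro n hn
      refine (mul_le_mul_of_nonneg_left (cntB_succ M j n v hv) (gB_pos _ _).le).trans ?_
      rw [Finset.mul_sum, Finset.sum_comm]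
      apply Finset.sum_le_sum
      intro c _
      split_ifs with hG
      · have hmem : Gd ϑ n c ∈ Y := by
          rw [hY, mem_filter, mem_image]
          exact ⟨⟨(n, c), mem_product.2 ⟨hn, mem_univ _⟩, rfl⟩, hG⟩
        have h2 := Finset.single_le_sum (s := Y) (f := fun y =>
          (if Gd ϑ n c = y then gB ϑ s n else 0) * cntB ϑ M j y v) (fun y _ => by
            apply mul_nonneg _ (cntB_nonneg _ _ _ _)
            have := gB_pos (ϑ := ϑ) s n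
            split_ifs <;> linarith) hmem
        simpa using h2
      · rw [mul_zero]
        apply Finset.sum_nonneg
        intro y _
        apply mul_nonneg _ (cntB_nonneg _ _ _ _)
        have := gB_pos (ϑ := ϑ) s n
        split_ifs <;> linarith
    refine (Finset.sum_le_sum h1).trans ?_
    rw [Finset.sum_comm]
    have h2 : ∀ y ∈ Y, ∑ n ∈ F, ∑ c : Fin 6, (if Gd ϑ n c = y then gB ϑ s n else 0) * cntB ϑ M j y v ≤
        6 * lam * (gB ϑ s y * cntB ϑ M j y v) := by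
      intro y hy
      have hyM : (M : ℤ) ≤ |y| := (mem_filter.1 hy).2
      have h3 := mul_le_mul_of_nonneg_right (h y hyM F) (cntB_nonneg (ϑ := ϑ) M j y v)
      calc ∑ n ∈ F, ∑ c : Fin 6, (if Gd ϑ n c = y then gB ϑ s n else 0) * cntB ϑ M j y v
          = (∑ n ∈ F, ∑ c : Fin 6, (if Gd ϑ n c = y then gB ϑ s n else 0)) * cntB ϑ M j y v := by
            rw [Finset.sum_mul]
            apply Finset.sum_congr rfl
            intro n _
            rw [Finset.sum_mul]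
        _ ≤ _ := h3
        _ = _ := by ring
    refine (Finset.sum_le_sum h2).trans ?_
    rw [← Finset.mul_sum]
    calc 6 * lam * ∑ y ∈ Y, gB ϑ s y * cntB ϑ M j y v ≤ 6 * lam * ((6 * lam) ^ j * gB ϑ s v) :=
          mul_le_mul_of_nonneg_left (ih Y) (by positivity)
      _ = _ := by rw [pow_succ]; ring

end Pool.Agent.Q247.RD
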