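import Mathlib
import Pool.Agent.Q247.RD.Six

/-!
# Straight trajectories: most words, for the tilted weights
-/

set_option autoImplicit false

open MeasureTheory Finset Filter Topology

namespace Pool.Agent.Q247.RD

open Pool.Agent.Q205.RP

variable {ϑ : ℤ} [OddI ϑ]

/-- the place `y` is, up to a factor `exp E`, the place at time `i` of a straight trajectory of
slope `-D` from `n` -/
def Bar (D E : ℝ) (n : ℤ) (i : ℕ) (y : ℤ) : Prop :=
  |(n : ℝ)| * Real.exp (-(i * D) - E) ≤ |(y : ℝ)| ∧ |(y : ℝ)| ≤ |(n : ℝ)| * Real.exp (-(i * D) + E)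

/-- words with distinct places and a straight trajectory -/
def Cls (ϑ : ℤ) (D E : ℝ) (T : ℕ) (n : ℤ) (w : List (Fin 6)) : Prop :=
  (sites (Gd ϑ) n w).Nodup ∧ ∀ i ≤ T, Bar D E n i (run (Gd ϑ) n (w.take i))

/-- straight words -/
def Pre (ϑ : ℤ) (D E : ℝ) (n : ℤ) (u : List (Fin 6)) : Prop :=
  ∀ i ≤ u.length, Bar D E n i (run (Gd ϑ) n (u.take i))

theorem pre_of_cls {D E : ℝ} {T : ℕ} {n : ℤ} {w : List (Fin 6)} (h : Cls ϑ D E T n w)
    (hw : w.length = T) {j : ℕ} (hj : j < T) : Pre ϑ D E n (w.take j) := by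
  intro i hi
  rw [List.length_take] at hi
  rw [List.take_take, min_eq_left (by omega)]
  exact h.2 i (by omega)

theorem bar_zero {D E : ℝ} (hE : 0 ≤ E) (n : ℤ) : Bar D E n 0 n := by
  unfold Bar
  simp only [Nat.cast_zero, zero_mul, neg_zero, zero_sub, zero_add]
  constructor
  · exact mul_le_of_le_one_right (abs_nonneg _) (Real.exp_le_one_iff.2 (by linarith))
  · exact le_mul_of_one_le_right (abs_nonneg _) (Real.one_le_exp hE)

theorem tendsto_mul_exp {c : ℝ} (hc : 0 < c) :
    Tendsto (fun L : ℝ => L * Real.exp (-c * L)) atTop (𝓝 0) := by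
  have := tendsto_rpow_mul_exp_neg_mul_atTop_nhds_zero 1 c hc
  refine this.congr (fun L => ?_)
  rw [Real.rpow_one]

theorem tendsto_exp_neg_mul {c : ℝ} (hc : 0 < c) :
    Tendsto (fun L : ℝ => Real.exp (-c * L)) atTop (𝓝 0) := by
  have := tendsto_rpow_mul_exp_neg_mul_atTop_nhds_zero 0 c hc
  refine this.congr (fun L => ?_)
  rw [Real.rpow_zero, one_mul]

/-- **Most words are straight.** -/
theorem tilted {r : ℝ} (hr0 : 0 < r) (hr1 : r < 1) {D : ℝ}
    (hD : D = Real.log 2 - r * Real.log 3) (hD0 : 0 < D) {ε δ' : ℝ} (hε : 0 < ε) (hδ' : 0 < δ') :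
    ∃ L₀ : ℝ, ∀ L : ℝ, L₀ ≤ L → ∀ (T : ℕ) (n : ℤ), Real.exp L ≤ |(n : ℝ)| →
      T * D + ε * L + δ' * L ≤ L →
      ∀ [DecidablePred (Cls ϑ D (ε * L) T n)],
      1 / 2 ≤ ∑ w ∈ (wd 6 T).filter (Cls ϑ D (ε * L) T n),
        lw (Gd ϑ) (chi6 ((1 - r) / 3) (r / 3)) n w := by
  classical
  have h1r : 0 < 1 - r := by linarith
  have hl3 : Real.log (3 / 2) = Real.log 3 - Real.log 2 :=
    Real.log_div (by norm_num) (by norm_num)
  have hl23 : Real.log (2 / 3) = Real.log 2 - Real.log 3 :=
    Real.log_div (by norm_num) (by norm_num)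
  have hl12 : Real.log (1 / 2) = -Real.log 2 := by
    rw [Real.log_div (by norm_num) (by norm_num), Real.log_one]; ring
  set χ := chi6 ((1 - r) / 3) (r / 3) with hχdef
  have hχ : ∀ x c, 0 < χ x c := chi6_pos (by positivity) (by positivity)
  have hχ1 : ∀ x, ∑ c, χ x c = 1 := fun x => by
    rw [hχdef, sum_chi6]; ring
  -- exponent for upward violations
  obtain ⟨s₁, hs₁0, hs₁1, hs₁⟩ := exists_exponent_w (q₀ := 1 - r) (q₁ := r)
    (a₀ := 1 / 2 * Real.exp (D * (1 - ε / 2))) (a₁ := 3 / 2 * Real.exp (D * (1 - ε / 2)))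
    (by ring) (by positivity) (by positivity) (by
      rw [Real.log_mul (by norm_num) (Real.exp_pos _).ne',
        Real.log_mul (by norm_num) (Real.exp_pos _).ne', Real.log_exp, hl12, hl3]
      have : (1 - r) * (-Real.log 2 + D * (1 - ε / 2)) +
          r * (Real.log 3 - Real.log 2 + D * (1 - ε / 2)) = -(D * ε / 2) := by
        rw [hD]; ring
      rw [this]
      have : 0 < D * ε / 2 := by positivity
      linarith)
  have hup : 3 * ((1 - r) / 3 * (1 / 2) ^ s₁ + r / 3 * (3 / 2) ^ s₁) <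
      Real.exp (-(s₁ * D * (1 - ε / 2))) := by
    rw [Real.mul_rpow (by norm_num) (Real.exp_pos _).le,
      Real.mul_rpow (by norm_num) (Real.exp_pos _).le, ← Real.exp_mul] at hs₁
    have e1 : Real.exp (-(s₁ * D * (1 - ε / 2))) * Real.exp (D * (1 - ε / 2) * s₁) = 1 := by
      rw [← Real.exp_add]
      have : -(s₁ * D * (1 - ε / 2)) + D * (1 - ε / 2) * s₁ = 0 := by ring
      rw [this, Real.exp_zero]
    have e2 := mul_lt_mul_of_pos_left hs₁ (Real.exp_pos (-(s₁ * D * (1 - ε / 2))))
    rw [mul_one] at e2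
    calc 3 * ((1 - r) / 3 * (1 / 2) ^ s₁ + r / 3 * (3 / 2) ^ s₁)
        = (Real.exp (-(s₁ * D * (1 - ε / 2))) * Real.exp (D * (1 - ε / 2) * s₁)) *
          ((1 - r) * (1 / 2) ^ s₁ + r * (3 / 2) ^ s₁) := by rw [e1]; ring
      _ = Real.exp (-(s₁ * D * (1 - ε / 2))) * ((1 - r) * ((1 / 2) ^ s₁ *
          Real.exp (D * (1 - ε / 2) * s₁)) + r * ((3 / 2) ^ s₁ *
          Real.exp (D * (1 - ε / 2) * s₁))) := by ring
      _ < _ := e2
  obtain ⟨κ₁, hκ₁a, hκ₁b⟩ := _root_.exists_between hup
  have hκ₁0 : 0 < κ₁ := lt_trans (by positivity) hκ₁a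
  obtain ⟨N₁, hN₁⟩ := drift6 (ϑ := ϑ) (show 0 < (1 - r) / 3 by positivity) (show 0 < r / 3 by positivity)
    s₁ κ₁ hκ₁a
  -- exponent for downward violations
  obtain ⟨s₂, hs₂0, hs₂1, hs₂⟩ := exists_exponent_w (q₀ := 1 - r) (q₁ := r)
    (a₀ := 2 * Real.exp (-(D * (1 + ε / 2)))) (a₁ := 2 / 3 * Real.exp (-(D * (1 + ε / 2))))
    (by ring) (by positivity) (by positivity) (by
      rw [Real.log_mul (by norm_num) (Real.exp_pos _).ne',
        Real.log_mul (by norm_num) (Real.exp_pos _).ne', Real.log_exp, hl23]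
      have : (1 - r) * (Real.log 2 + -(D * (1 + ε / 2))) +
          r * (Real.log 2 - Real.log 3 + -(D * (1 + ε / 2))) = -(D * ε / 2) := by
        rw [hD]; ring
      rw [this]
      have : 0 < D * ε / 2 := by positivity
      linarith)
  have i1 : (1 / 2 : ℝ) ^ (-s₂) = 2 ^ s₂ := by
    rw [Real.rpow_neg (by norm_num), ← Real.inv_rpow (by norm_num)]
    norm_num
  have i2 : (3 / 2 : ℝ) ^ (-s₂) = (2 / 3) ^ s₂ := by
    rw [Real.rpow_neg (by norm_num), ← Real.inv_rpow (by norm_num)]
    norm_num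
  have hlow : 3 * ((1 - r) / 3 * (1 / 2) ^ (-s₂) + r / 3 * (3 / 2) ^ (-s₂)) <
      Real.exp (s₂ * D * (1 + ε / 2)) := by
    rw [i1, i2]
    rw [Real.mul_rpow (by norm_num) (Real.exp_pos _).le,
      Real.mul_rpow (by norm_num) (Real.exp_pos _).le, ← Real.exp_mul] at hs₂
    have e1 : Real.exp (s₂ * D * (1 + ε / 2)) * Real.exp (-(D * (1 + ε / 2)) * s₂) = 1 := by
      rw [← Real.exp_add]
      have : s₂ * D * (1 + ε / 2) + -(D * (1 + ε / 2)) * s₂ = 0 := by ring
      rw [this, Real.exp_zero]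
    have e2 := mul_lt_mul_of_pos_left hs₂ (Real.exp_pos (s₂ * D * (1 + ε / 2)))
    rw [mul_one] at e2
    calc 3 * ((1 - r) / 3 * 2 ^ s₂ + r / 3 * (2 / 3) ^ s₂)
        = (Real.exp (s₂ * D * (1 + ε / 2)) * Real.exp (-(D * (1 + ε / 2)) * s₂)) *
          ((1 - r) * 2 ^ s₂ + r * (2 / 3) ^ s₂) := by rw [e1]; ring
      _ = Real.exp (s₂ * D * (1 + ε / 2)) * ((1 - r) * (2 ^ s₂ *
          Real.exp (-(D * (1 + ε / 2)) * s₂)) + r * ((2 / 3) ^ s₂ *
          Real.exp (-(D * (1 + ε / 2)) * s₂))) := by ring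
      _ < _ := e2
  obtain ⟨κ₂, hκ₂a, hκ₂b⟩ := _root_.exists_between hlow
  have hκ₂0 : 0 < κ₂ := lt_trans (by positivity) hκ₂a
  obtain ⟨N₂, hN₂⟩ := drift6 (ϑ := ϑ) (show 0 < (1 - r) / 3 by positivity) (show 0 < r / 3 by positivity)
    (-s₂) κ₂ hκ₂a
  -- exponent for repetitions
  obtain ⟨s₃, hs₃0, hs₃1, hs₃⟩ := exists_exponent_w (q₀ := 1 - r) (q₁ := r)
    (a₀ := 1 / 2) (a₁ := 3 / 2) (by ring) (by positivity) (by positivity) (by
      rw [hl12, hl3]
      have : (1 - r) * (-Real.log 2) + r * (Real.log 3 - Real.log 2) = -D := by rw [hD]; ring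
      rw [this]
      linarith)
  have hcl : 3 * ((1 - r) / 3 * (1 / 2) ^ s₃ + r / 3 * (3 / 2) ^ s₃) < 1 := by
    calc _ = (1 - r) * (1 / 2) ^ s₃ + r * (3 / 2) ^ s₃ := by ring
      _ < 1 := hs₃
  obtain ⟨κ₃, hκ₃a, hκ₃b⟩ := _root_.exists_between hcl
  have hκ₃0 : 0 < κ₃ := lt_trans (by positivity) hκ₃a
  obtain ⟨N₃, hN₃⟩ := drift6 (ϑ := ϑ) (show 0 < (1 - r) / 3 by positivity) (show 0 < r / 3 by positivity)
    s₃ κ₃ hκ₃a
  have hkϑ : 0 < 6 * kk ϑ := by linarith [kk_pos ϑ]
  obtain ⟨τ, hτκ, hτ0⟩ : ∃ τ : ℝ, κ₃ * (6 * kk ϑ) ^ τ < 1 ∧ 0 < τ := by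
    have h1 : Tendsto (fun θ : ℝ => κ₃ * (6 * kk ϑ) ^ θ) (𝓝 0) (𝓝 (κ₃ * (6 * kk ϑ) ^ (0 : ℝ))) :=
      ((Real.continuousAt_const_rpow hkϑ.ne').tendsto).const_mul κ₃
    rw [Real.rpow_zero, mul_one] at h1
    have h2 := (h1.mono_left (nhdsWithin_le_nhds (s := Set.Ioi 0))).eventually
      (gt_mem_nhds hκ₃b)
    exact (h2.and self_mem_nhdsWithin).exists
  set κ' : ℝ := κ₃ * (6 * kk ϑ) ^ τ with hκ'
  have hκ'0 : 0 < κ' := by positivity
  have hC₃ : 0 < (1 - κ')⁻¹ := inv_pos.2 (by linarith)
  -- the error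
  set c₁ : ℝ := s₁ * ε / 2 with hc₁
  set c₂ : ℝ := s₂ * ε / 2 with hc₂
  set c₃ : ℝ := τ * δ' with hc₃
  have hc₁0 : 0 < c₁ := by positivity
  have hc₂0 : 0 < c₂ := by positivity
  have hc₃0 : 0 < c₃ := by positivity
  have herr : Tendsto (fun L : ℝ => (L / D + 1) * (2 * Real.exp (-c₁ * L) +
      2 * Real.exp (-c₂ * L)) + L / D * ((1 - κ')⁻¹ * Real.exp (-c₃ * L))) atTop (𝓝 0) := by
    have t : Tendsto (fun L : ℝ => 2 / D * (L * Real.exp (-c₁ * L)) +
        2 / D * (L * Real.exp (-c₂ * L)) + (2 * Real.exp (-c₁ * L) + 2 * Real.exp (-c₂ * L)) +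
        (1 - κ')⁻¹ / D * (L * Real.exp (-c₃ * L))) atTop
        (𝓝 (2 / D * 0 + 2 / D * 0 + (2 * 0 + 2 * 0) + (1 - κ')⁻¹ / D * 0)) :=
      ((((tendsto_mul_exp hc₁0).const_mul _).add ((tendsto_mul_exp hc₂0).const_mul _)).add
        (((tendsto_exp_neg_mul hc₁0).const_mul _).add
          ((tendsto_exp_neg_mul hc₂0).const_mul _))).add ((tendsto_mul_exp hc₃0).const_mul _)
    simp only [mul_zero, add_zero] at t
    refine t.congr (fun L => ?_)
    field_simp
  have hN := tendsto_id.const_mul_atTop hδ'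
  obtain ⟨L₀, hL₀⟩ := eventually_atTop.1 ((herr.eventually (gt_mem_nhds
    (show (0 : ℝ) < 1 / 2 by norm_num))).and ((eventually_gt_atTop (0 : ℝ)).and
      (hN.eventually_gt_atTop (Real.log (((max N₁ (max N₂ N₃) : ℕ) : ℝ) + 1)))))
  refine ⟨L₀, fun L hL T n hn hT => ?_⟩
  obtain ⟨hE1, hL0, hE3⟩ := hL₀ L hL
  intro inst
  simp only [id] at hE3
  set N : ℕ := max N₁ (max N₂ N₃) with hNdef
  set E : ℝ := ε * L with hE
  have hE0 : 0 < E := by positivity
  set M : ℝ := Real.exp (δ' * L) with hM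
  have hM0 : 0 < M := Real.exp_pos _
  have hNM : (N : ℝ) < M := by
    have h1 : Real.log ((N : ℝ) + 1) < δ' * L := hE3
    have h2 := Real.exp_lt_exp.2 h1
    rw [Real.exp_log (by positivity)] at h2
    rw [hM]
    linarith
  have hnpos : 0 < |(n : ℝ)| := lt_of_lt_of_le (Real.exp_pos _) hn
  have hTD : (T : ℝ) * D ≤ L := by
    have : 0 < ε * L + δ' * L := by positivity
    rw [hE] at hT
    linarith
  have hTL : (T : ℝ) ≤ L / D := by rwa [le_div_iff₀ hD0]
  -- the barrier is high
  have hbar : ∀ i ≤ T, ∀ y : ℤ, Bar D E n i y → M ≤ |(y : ℝ)| := by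
    intro i hi y hy
    refine le_trans ?_ hy.1
    have hi' : (i : ℝ) * D ≤ T * D := mul_le_mul_of_nonneg_right (by exact_mod_cast hi) hD0.le
    calc M ≤ Real.exp L * Real.exp (-(i * D) - E) := by
          rw [← Real.exp_add, hM]
          apply Real.exp_le_exp.2
          linarith
      _ ≤ _ := mul_le_mul_of_nonneg_right hn (Real.exp_pos _).le
  -- the bad events
  set R : ℕ → List (Fin 6) → Prop := fun i u => (∀ s ∈ sites (Gd ϑ) n u, (N : ℤ) < |s|) ∧
    ¬ Bar D E n i (run (Gd ϑ) n u) with hR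
  set S : ℕ → List (Fin 6) → Prop := fun i u => (∀ s ∈ sites (Gd ϑ) n u, (N : ℤ) < |s|) ∧
    M ≤ |(run (Gd ϑ) n (u.take i) : ℝ)| ∧ run (Gd ϑ) n u = run (Gd ϑ) n (u.take i) with hS
  have hsplit : ∀ w ∈ wd 6 T, lw (Gd ϑ) χ n w ≤ (if Cls ϑ D E T n w then lw (Gd ϑ) χ n w else 0) +
      (∑ i ∈ range (T + 1), (if R i (w.take i) then lw (Gd ϑ) χ n w else 0) +
      ∑ i ∈ range T, ∑ m ∈ range (T - i), (if S i (w.take (i + (m + 1))) then lw (Gd ϑ) χ n w
        else 0)) := by
    intro w hw
    have hwl : w.length = T := mem_wd.1 hw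
    have hpos := (lw_pos (Gd ϑ) χ hχ n w).le
    have hn1 : 0 ≤ ∑ i ∈ range (T + 1), (if R i (w.take i) then lw (Gd ϑ) χ n w else 0) :=
      Finset.sum_nonneg (fun i _ => by split_ifs <;> linarith)
    have hn2 : 0 ≤ ∑ i ∈ range T, ∑ m ∈ range (T - i), (if S i (w.take (i + (m + 1))) then
        lw (Gd ϑ) χ n w else 0) :=
      Finset.sum_nonneg (fun i _ => Finset.sum_nonneg (fun m _ => by split_ifs <;> linarith))
    by_cases hcls : Cls ϑ D E T n w
    · rw [if_pos hcls]
      linarith
    · rw [if_neg hcls, zero_add]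
      by_cases hallbar : ∀ i ≤ T, Bar D E n i (run (Gd ϑ) n (w.take i))
      · -- a repetition
        have hnd : ¬ (sites (Gd ϑ) n w).Nodup := fun h => hcls ⟨h, hallbar⟩
        rw [sites_eq, hwl] at hnd
        rw [List.nodup_map_iff_inj_on List.nodup_range] at hnd
        push Not at hnd
        simp only [List.mem_range] at hnd
        obtain ⟨a, ha, b, hb, hab, hne⟩ := hnd
        have key : ∀ a b : ℕ, a < b → b < T → run (Gd ϑ) n (w.take a) = run (Gd ϑ) n (w.take b) →
            lw (Gd ϑ) χ n w ≤ ∑ i ∈ range T, ∑ m ∈ range (T - i),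
              (if S i (w.take (i + (m + 1))) then lw (Gd ϑ) χ n w else 0) := by
          intro a b hlt hbT hrun
          have hSab : S a (w.take (a + ((b - a - 1) + 1))) := by
            rw [show a + ((b - a - 1) + 1) = b by omega]
            refine ⟨?_, ?_, ?_⟩
            · intro s hs
              rw [sites_eq, List.mem_map] at hs
              obtain ⟨i, hi, rfl⟩ := hs
              rw [List.mem_range, List.length_take] at hi
              rw [List.take_take, min_eq_left (by omega)]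
              have h1 := hbar i (by omega) _ (hallbar i (by omega))
              have h2 : ((N : ℤ) : ℝ) < ((|run (Gd ϑ) n (w.take i)| : ℤ) : ℝ) := by
                push_cast
                linarith
              exact_mod_cast h2
            · rw [List.take_take, min_eq_left (by omega)]
              exact hbar a (by omega) _ (hallbar a (by omega))
            · rw [List.take_take, min_eq_left (by omega)]
              exact hrun.symm
          have h1 := Finset.single_le_sum (s := range (T - a)) (f := fun m =>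
            (if S a (w.take (a + (m + 1))) then lw (Gd ϑ) χ n w else 0)) (fun m _ => by
              split_ifs <;> linarith) (Finset.mem_range.2 (show b - a - 1 < T - a by omega))
          have h2 := Finset.single_le_sum (s := range T) (f := fun i => ∑ m ∈ range (T - i),
            (if S i (w.take (i + (m + 1))) then lw (Gd ϑ) χ n w else 0)) (fun i _ =>
              Finset.sum_nonneg (fun m _ => by split_ifs <;> linarith))
              (Finset.mem_range.2 (show a < T by omega))
          rw [if_pos hSab] at h1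
          exact h1.trans h2
        rcases lt_or_gt_of_ne hne with hlt | hlt
        · have := key a b hlt hb hab
          linarith
        · have := key b a hlt ha hab.symm
          linarith
      · -- a violation
        push Not at hallbar
        have hex : ∃ i, i ≤ T ∧ ¬ Bar D E n i (run (Gd ϑ) n (w.take i)) := hallbar
        set i := Nat.find hex with hi
        obtain ⟨hiT, hiB⟩ := Nat.find_spec hex
        rw [← hi] at hiT hiB
        have hmin : ∀ j < i, Bar D E n j (run (Gd ϑ) n (w.take j)) := by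
          intro j hj
          by_contra hc
          exact Nat.find_min hex hj ⟨by omega, hc⟩
        have hRi : R i (w.take i) := by
          refine ⟨?_, hiB⟩
          intro s hs
          rw [sites_eq, List.mem_map] at hs
          obtain ⟨j, hj, rfl⟩ := hs
          rw [List.mem_range, List.length_take] at hj
          rw [List.take_take, min_eq_left (by omega)]
          have h1 := hbar j (by omega) _ (hmin j (by omega))
          have h2 : ((N : ℤ) : ℝ) < ((|run (Gd ϑ) n (w.take j)| : ℤ) : ℝ) := by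
            push_cast
            linarith
          exact_mod_cast h2
        have h1 := Finset.single_le_sum (s := range (T + 1)) (f := fun i =>
            (if R i (w.take i) then lw (Gd ϑ) χ n w else 0)) (fun i _ => by
              split_ifs <;> linarith) (Finset.mem_range.2 (show i < T + 1 by omega))
        rw [if_pos hRi] at h1
        linarith
  -- summation
  have hsum := Finset.sum_le_sum hsplit
  rw [lw_sum_one (Gd ϑ) χ hχ1, Finset.sum_add_distrib, Finset.sum_add_distrib, ← Finset.sum_filter,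
    Finset.sum_comm] at hsum
  have hbadR : ∑ i ∈ range (T + 1), ∑ w ∈ wd 6 T, (if R i (w.take i) then lw (Gd ϑ) χ n w else 0) ≤
      (L / D + 1) * (2 * Real.exp (-c₁ * L) + 2 * Real.exp (-c₂ * L)) := by
    have h1 : ∀ i ∈ range (T + 1), ∑ w ∈ wd 6 T, (if R i (w.take i) then lw (Gd ϑ) χ n w else 0) ≤
        2 * Real.exp (-c₁ * L) + 2 * Real.exp (-c₂ * L) := by
      intro i hi
      rw [Finset.mem_range] at hi
      have h2 := lw_prefix (Gd ϑ) χ hχ1 (R i) i (T - i) n
      rw [show i + (T - i) = T by omega] at h2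
      rw [h2]
      have hiD : (i : ℝ) * D ≤ L := by
        refine le_trans ?_ hTD
        exact mul_le_mul_of_nonneg_right (by exact_mod_cast (by omega : i ≤ T)) hD0.le
      set B₁ : ℝ := |(n : ℝ)| * Real.exp (-(i * D) + E) with hB₁
      set B₂ : ℝ := |(n : ℝ)| * Real.exp (-(i * D) - E) with hB₂
      have hB₁0 : 0 < B₁ := by positivity
      have hB₂0 : 0 < B₂ := by positivity
      have hn1 : 1 ≤ |(n : ℝ)| := le_trans (Real.one_le_exp hL0.le) hn
      have hB₂1 : 1 ≤ B₂ := by
        have hi' : (i : ℝ) * D ≤ T * D :=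
          mul_le_mul_of_nonneg_right (by exact_mod_cast (by omega : i ≤ T)) hD0.le
        calc (1 : ℝ) ≤ Real.exp L * Real.exp (-(i * D) - E) := by
              rw [← Real.exp_add]
              apply Real.one_le_exp
              have : 0 < δ' * L := by positivity
              linarith
          _ ≤ _ := mul_le_mul_of_nonneg_right hn (Real.exp_pos _).le
      have h3 : ∑ u ∈ (wd 6 i).filter (R i), lw (Gd ϑ) χ n u ≤
          ∑ u ∈ (wd 6 i).filter (fun u => (∀ s ∈ sites (Gd ϑ) n u, (N : ℤ) < |s|) ∧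
            B₁ < |(run (Gd ϑ) n u : ℝ)|), lw (Gd ϑ) χ n u +
          ∑ u ∈ (wd 6 i).filter (fun u => (∀ s ∈ sites (Gd ϑ) n u, (N : ℤ) < |s|) ∧
            |(run (Gd ϑ) n u : ℝ)| < B₂), lw (Gd ϑ) χ n u := by
        rw [Finset.sum_filter, Finset.sum_filter, Finset.sum_filter, ← Finset.sum_add_distrib]
        apply Finset.sum_le_sum
        intro u _
        have hpos := (lw_pos (Gd ϑ) χ hχ n u).le
        by_cases hRu : R i u
        · rw [if_pos hRu]
          obtain ⟨h4, h5⟩ := hRu
          unfold Bar at h5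
          rw [not_and_or, not_le, not_le] at h5
          rcases h5 with h5 | h5
          · rw [if_pos (show (∀ s ∈ sites (Gd ϑ) n u, (N : ℤ) < |s|) ∧
              |(run (Gd ϑ) n u : ℝ)| < B₂ from ⟨h4, h5⟩)]
            have : 0 ≤ (if (∀ s ∈ sites (Gd ϑ) n u, (N : ℤ) < |s|) ∧
              B₁ < |(run (Gd ϑ) n u : ℝ)| then lw (Gd ϑ) χ n u else 0) := by split_ifs <;> linarith
            linarith
          · rw [if_pos (show (∀ s ∈ sites (Gd ϑ) n u, (N : ℤ) < |s|) ∧
              B₁ < |(run (Gd ϑ) n u : ℝ)| from ⟨h4, h5⟩)]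
            have : 0 ≤ (if (∀ s ∈ sites (Gd ϑ) n u, (N : ℤ) < |s|) ∧
              |(run (Gd ϑ) n u : ℝ)| < B₂ then lw (Gd ϑ) χ n u else 0) := by split_ifs <;> linarith
            linarith
        · rw [if_neg hRu]
          have i1 : 0 ≤ (if (∀ s ∈ sites (Gd ϑ) n u, (N : ℤ) < |s|) ∧
              B₁ < |(run (Gd ϑ) n u : ℝ)| then lw (Gd ϑ) χ n u else 0) := by split_ifs <;> linarith
          have i2 : 0 ≤ (if (∀ s ∈ sites (Gd ϑ) n u, (N : ℤ) < |s|) ∧
              |(run (Gd ϑ) n u : ℝ)| < B₂ then lw (Gd ϑ) χ n u else 0) := by split_ifs <;> linarith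
          linarith
      refine h3.trans (add_le_add ?_ ?_)
      · refine (viol_up (Gd ϑ) χ hχ hs₁0 hκ₁0 hB₁0 N (fun x hx => hN₁ x (lt_of_le_of_lt
          (by exact_mod_cast le_max_left _ _) hx)) i n _ (fun w hw => hw.1)
          (fun w hw => hw.2)).trans ?_
        have e1 : VV s₁ n ≤ 2 * |(n : ℝ)| ^ s₁ := by
          unfold VV
          calc (1 + |(n : ℝ)|) ^ s₁ ≤ (2 * |(n : ℝ)|) ^ s₁ :=
                Real.rpow_le_rpow (by positivity) (by linarith) hs₁0.le
            _ = 2 ^ s₁ * |(n : ℝ)| ^ s₁ := Real.mul_rpow (by norm_num) (abs_nonneg _)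
            _ ≤ 2 * |(n : ℝ)| ^ s₁ := by
                apply mul_le_mul_of_nonneg_right _ (by positivity)
                calc (2 : ℝ) ^ s₁ ≤ 2 ^ (1 : ℝ) :=
                      Real.rpow_le_rpow_of_exponent_le (by norm_num) hs₁1
                  _ = 2 := Real.rpow_one 2
        have e2 : B₁ ^ (-s₁) = |(n : ℝ)| ^ (-s₁) * Real.exp (s₁ * (i * D) - s₁ * E) := by
          rw [hB₁, Real.mul_rpow hnpos.le (Real.exp_pos _).le, ← Real.exp_mul]
          congr 2
          ring
        have e3 : |(n : ℝ)| ^ s₁ * |(n : ℝ)| ^ (-s₁) = 1 := by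
          rw [← Real.rpow_add hnpos]; simp
        have e4 : κ₁ ^ i ≤ Real.exp (-(i * (s₁ * D * (1 - ε / 2)))) := by
          calc κ₁ ^ i ≤ Real.exp (-(s₁ * D * (1 - ε / 2))) ^ i :=
                pow_le_pow_left₀ hκ₁0.le hκ₁b.le i
            _ = _ := by rw [← Real.exp_nat_mul]; ring_nf
        calc κ₁ ^ i * VV s₁ n * B₁ ^ (-s₁)
            ≤ Real.exp (-(i * (s₁ * D * (1 - ε / 2)))) * (2 * |(n : ℝ)| ^ s₁) *
              (|(n : ℝ)| ^ (-s₁) * Real.exp (s₁ * (i * D) - s₁ * E)) := by
              rw [e2]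
              apply mul_le_mul_of_nonneg_right _ (by positivity)
              exact mul_le_mul e4 e1 (VV_pos _ _).le (Real.exp_pos _).le
          _ = 2 * (|(n : ℝ)| ^ s₁ * |(n : ℝ)| ^ (-s₁)) *
              (Real.exp (-(i * (s₁ * D * (1 - ε / 2)))) *
                Real.exp (s₁ * (i * D) - s₁ * E)) := by ring
          _ = 2 * Real.exp (s₁ * ε / 2 * (i * D) - s₁ * E) := by
              rw [e3, ← Real.exp_add, mul_one]
              congr 2
              ring
          _ ≤ 2 * Real.exp (-c₁ * L) := by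
              apply mul_le_mul_of_nonneg_left _ (by norm_num)
              apply Real.exp_le_exp.2
              have : s₁ * ε / 2 * (i * D) ≤ s₁ * ε / 2 * L :=
                mul_le_mul_of_nonneg_left hiD (by positivity)
              rw [hc₁, hE]
              linarith
      · refine (viol_low (Gd ϑ) χ hχ hs₂0 hκ₂0 hB₂0 N (fun x hx => hN₂ x (lt_of_le_of_lt
          (by exact_mod_cast ((le_max_left N₂ N₃).trans (le_max_right N₁ (max N₂ N₃)))) hx)) i n _
          (fun w hw => hw.1) (fun w hw => hw.2)).trans ?_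
        have e1 : VV (-s₂) n ≤ |(n : ℝ)| ^ (-s₂) := by
          unfold VV
          exact Real.rpow_le_rpow_of_nonpos hnpos (by linarith) (by linarith)
        have e2 : (1 + B₂) ^ s₂ ≤ 2 * (|(n : ℝ)| ^ s₂ * Real.exp (-(s₂ * (i * D)) - s₂ * E)) := by
          calc (1 + B₂) ^ s₂ ≤ (2 * B₂) ^ s₂ :=
                Real.rpow_le_rpow (by positivity) (by linarith) hs₂0.le
            _ = 2 ^ s₂ * B₂ ^ s₂ := Real.mul_rpow (by norm_num) hB₂0.le
            _ ≤ 2 * B₂ ^ s₂ := by
                apply mul_le_mul_of_nonneg_right _ (by positivity)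
                calc (2 : ℝ) ^ s₂ ≤ 2 ^ (1 : ℝ) :=
                      Real.rpow_le_rpow_of_exponent_le (by norm_num) hs₂1
                  _ = 2 := Real.rpow_one 2
            _ = _ := by
                rw [hB₂, Real.mul_rpow hnpos.le (Real.exp_pos _).le, ← Real.exp_mul]
                congr 3
                ring
        have e3 : |(n : ℝ)| ^ (-s₂) * |(n : ℝ)| ^ s₂ = 1 := by
          rw [← Real.rpow_add hnpos]; simp
        have e4 : κ₂ ^ i ≤ Real.exp (i * (s₂ * D * (1 + ε / 2))) := by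
          calc κ₂ ^ i ≤ Real.exp (s₂ * D * (1 + ε / 2)) ^ i :=
                pow_le_pow_left₀ hκ₂0.le hκ₂b.le i
            _ = _ := by rw [← Real.exp_nat_mul]
        calc κ₂ ^ i * VV (-s₂) n * (1 + B₂) ^ s₂
            ≤ Real.exp (i * (s₂ * D * (1 + ε / 2))) * |(n : ℝ)| ^ (-s₂) *
              (2 * (|(n : ℝ)| ^ s₂ * Real.exp (-(s₂ * (i * D)) - s₂ * E))) := by
              apply mul_le_mul _ e2 (by positivity) (by positivity)
              exact mul_le_mul e4 e1 (VV_pos _ _).le (Real.exp_pos _).le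
          _ = 2 * (|(n : ℝ)| ^ (-s₂) * |(n : ℝ)| ^ s₂) *
              (Real.exp (i * (s₂ * D * (1 + ε / 2))) *
                Real.exp (-(s₂ * (i * D)) - s₂ * E)) := by ring
          _ = 2 * Real.exp (s₂ * ε / 2 * (i * D) - s₂ * E) := by
              rw [e3, ← Real.exp_add, mul_one]
              congr 2
              ring
          _ ≤ 2 * Real.exp (-c₂ * L) := by
              apply mul_le_mul_of_nonneg_left _ (by norm_num)
              apply Real.exp_le_exp.2
              have : s₂ * ε / 2 * (i * D) ≤ s₂ * ε / 2 * L :=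
                mul_le_mul_of_nonneg_left hiD (by positivity)
              rw [hc₂, hE]
              linarith
    refine (Finset.sum_le_sum h1).trans ?_
    rw [Finset.sum_const, card_range, nsmul_eq_mul]
    apply mul_le_mul_of_nonneg_right _ (by positivity)
    push_cast
    linarith
  have hbadS : ∑ w ∈ wd 6 T, ∑ i ∈ range T, ∑ m ∈ range (T - i),
      (if S i (w.take (i + (m + 1))) then lw (Gd ϑ) χ n w else 0) ≤
      L / D * ((1 - κ')⁻¹ * Real.exp (-c₃ * L)) := by
    rw [Finset.sum_comm]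
    have h1 : ∀ i ∈ range T, ∑ w ∈ wd 6 T, ∑ m ∈ range (T - i),
        (if S i (w.take (i + (m + 1))) then lw (Gd ϑ) χ n w else 0) ≤
        (1 - κ')⁻¹ * Real.exp (-c₃ * L) := by
      intro i hi
      rw [Finset.mem_range] at hi
      rw [Finset.sum_comm]
      have h2 : ∀ m ∈ range (T - i), ∑ w ∈ wd 6 T,
          (if S i (w.take (i + (m + 1))) then lw (Gd ϑ) χ n w else 0) ≤
          κ' ^ m * Real.exp (-c₃ * L) := by
        intro m hm
        rw [Finset.mem_range] at hm
        have h3 := lw_prefix (Gd ϑ) χ hχ1 (S i) (i + (m + 1)) (T - (i + (m + 1))) n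
        rw [show i + (m + 1) + (T - (i + (m + 1))) = T by omega] at h3
        rw [h3, Finset.sum_filter, sum_wd_add]
        have h4 : ∀ u ∈ wd 6 i, ∑ v ∈ wd 6 (m + 1), (if S i (u ++ v) then lw (Gd ϑ) χ n (u ++ v)
            else 0) ≤ lw (Gd ϑ) χ n u * (κ' ^ m * Real.exp (-c₃ * L)) := by
          intro u hu
          have hul : u.length = i := mem_wd.1 hu
          have htk : ∀ v, (u ++ v).take i = u := fun v => by rw [← hul, List.take_left]
          set y := run (Gd ϑ) n u with hy
          by_cases hyM : M ≤ |(y : ℝ)|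
          · have h5 := closed_lw χ hχ (s := s₃) hκ₃0 hτ0.le hM0 N (fun x hx => hN₃ x
              (lt_of_le_of_lt (by exact_mod_cast ((le_max_right N₂ N₃).trans
                (le_max_right N₁ (max N₂ N₃)))) hx)) (m + 1) (by omega) y hyM
              (fun v => (∀ s ∈ sites (Gd ϑ) y v, (N : ℤ) < |s|) ∧ run (Gd ϑ) y v = y)
              (fun v hv => hv.1) (fun v hv => hv.2)
            have h6 : M ^ (-τ) = Real.exp (-c₃ * L) := by
              rw [hM, ← Real.exp_mul, hc₃]
              ring_nf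
            have h7 : κ' ^ (m + 1) ≤ κ' ^ m :=
              pow_le_pow_of_le_one hκ'0.le hτκ.le (Nat.le_succ m)
            have h8 : ∑ v ∈ wd 6 (m + 1), (if S i (u ++ v) then lw (Gd ϑ) χ n (u ++ v) else 0) ≤
                lw (Gd ϑ) χ n u * ∑ v ∈ (wd 6 (m + 1)).filter
                  (fun v => (∀ s ∈ sites (Gd ϑ) y v, (N : ℤ) < |s|) ∧ run (Gd ϑ) y v = y),
                  lw (Gd ϑ) χ y v := by
              rw [Finset.mul_sum, Finset.sum_filter]
              apply Finset.sum_le_sum
              intro v _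
              by_cases hSv : S i (u ++ v)
              · rw [if_pos hSv]
                obtain ⟨h9, _, h10⟩ := hSv
                rw [htk, run_append] at h10
                rw [if_pos ⟨fun s hs => h9 s (by
                  rw [sites_append]
                  exact List.mem_append_right _ hs), h10⟩, lw_append]
              · rw [if_neg hSv]
                split_ifs
                · exact (mul_pos (lw_pos (Gd ϑ) χ hχ _ _) (lw_pos (Gd ϑ) χ hχ _ _)).le
                · exact le_rfl
            refine h8.trans ?_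
            apply mul_le_mul_of_nonneg_left _ (lw_pos (Gd ϑ) χ hχ _ _).le
            refine h5.trans ?_
            rw [h6]
            exact mul_le_mul_of_nonneg_right h7 (Real.exp_pos _).le
          · have h5 : ∑ v ∈ wd 6 (m + 1), (if S i (u ++ v) then lw (Gd ϑ) χ n (u ++ v) else 0) = 0 := by
              apply Finset.sum_eq_zero
              intro v _
              rw [if_neg]
              intro hSv
              apply hyM
              have := hSv.2.1
              rw [htk] at this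
              exact this
            rw [h5]
            have := lw_pos (Gd ϑ) χ hχ n u
            positivity
        refine (Finset.sum_le_sum h4).trans (le_of_eq ?_)
        rw [← Finset.sum_mul, lw_sum_one (Gd ϑ) χ hχ1, one_mul]
      refine (Finset.sum_le_sum h2).trans ?_
      rw [← Finset.sum_mul]
      apply mul_le_mul_of_nonneg_right _ (Real.exp_pos _).le
      have h3 := (summable_geometric_of_lt_one hκ'0.le hτκ).sum_le_tsum (range (T - i))
        (fun m _ => by positivity)
      rwa [tsum_geometric_of_lt_one hκ'0.le hτκ] at h3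
    refine (Finset.sum_le_sum h1).trans ?_
    rw [Finset.sum_const, card_range, nsmul_eq_mul]
    exact mul_le_mul_of_nonneg_right hTL (by positivity)
  refine le_trans ?_ (le_of_eq (Finset.sum_congr (s₁ := (wd 6 T).filter
    (fun a => Cls ϑ D E T n a)) ?_ (fun _ _ => rfl)))
  · linarith
  · ext a
    simp only [mem_filter]
    exact Iff.rfl

end Pool.Agent.Q247.RD
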