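import Mathlib
import Pool.Agent.Q247.RD.Gam2
import Pool.Agent.Q205.RP.Gam3

/-!
# The rate of the random walk model and the perturbed `3x+1` maps
-/

set_option autoImplicit false

open MeasureTheory Finset Filter Topology

namespace Pool.Agent.Q247.RD

open Pool.Agent.Q205.RP

variable {ϑ : ℤ} [OddI ϑ]

open Pool.Agent.H395R2.G3

open Classical in
/-- many slow trajectories -/
theorem slow_alpha {α δ : ℝ} (hα : mu < α) (hE : 0 < ex α) (hδ0 : 0 < δ) (hδ1 : δ < 1) :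
    ∀ᵐ ω ∂P 6, ∀ B : ℕ, ∀ᶠ k : ℕ in atTop,
      Real.exp ((ex α - δ) * (k * Real.log 2)) <
        (((Finset.Icc ((2 : ℤ) ^ k) (2 ^ (k + 1))).filter (fun n => ∀ i : ℕ,
          (i : ℝ) ≤ (1 - δ) * α * (k * Real.log 2) → (B : ℤ) < |(Tn (Gd ϑ) ω)^[i] n|)).card : ℝ) := by
  have hα0 : 0 < α := mu_pos.trans hα
  obtain ⟨θ, ρ, a1, a2, a3, a4, a5, a6, a7, a8⟩ := tilt_alpha hα
  have h1 := rr_gt_half hα
  have h2 := rr_lt_one hα0
  have h3 := slow_count_ae (ϑ := ϑ) (by linarith) h2 (rr_spec α) (by positivity) a1 a2 a3 a4 a5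
    (by rw [a6]; exact hE) a7 hδ0 hδ1
  filter_upwards [h3] with ω hω B
  filter_upwards [hω B] with k hk
  rw [a6] at hk
  refine lt_of_lt_of_le hk (le_of_eq ?_)
  congr 2
  ext n
  simp only [mem_filter]
  have e1 : (1 - δ) * (k * Real.log 2) / (1 / α) = (1 - δ) * α * (k * Real.log 2) := by
    field_simp
  rw [e1]

/-- long trajectories without repetition are rare -/
theorem dist_alpha {α η : ℝ} (hα : mu < α) (hη : 0 < η) :
    ∃ C : ℝ, 0 < C ∧ ∀ x : ℤ,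
      P 6 {ω | (sites (Gd ϑ) x (word (Gd ϑ) ω x ⌈α * Real.log (2 + |(x : ℝ)|)⌉₊)).Nodup} ≤
        ENNReal.ofReal (C * (2 + |(x : ℝ)|) ^ (-(1 - ex α - η))) := by
  have hα0 : 0 < α := mu_pos.trans hα
  obtain ⟨θ, ρ, a1, a2, a3, a4, a5, a6, a7, a8⟩ := tilt_alpha hα
  have hlogρ : Real.log ρ < 0 := Real.log_neg a2 a3
  set t : ℝ := min (η / α) (-Real.log ρ / 2) with ht
  have ht0 : 0 < t := lt_min (by positivity) (by linarith)
  have ht1 : t ≤ η / α := min_le_left _ _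
  have ht2 : t ≤ -Real.log ρ / 2 := min_le_right _ _
  set ρ' : ℝ := ρ * Real.exp t with hρ'
  have hρ'0 : 0 < ρ' := by positivity
  have hlogρ' : Real.log ρ' = Real.log ρ + t := by
    rw [hρ', Real.log_mul a2.ne' (Real.exp_pos _).ne', Real.log_exp]
  have hρ'1 : ρ' < 1 := by
    rw [← Real.log_neg_iff hρ'0, hlogρ']
    linarith
  have hρρ' : ρ < ρ' := by
    have := Real.one_lt_exp_iff.2 ht0
    nlinarith
  obtain ⟨N, hN⟩ := drift6' (ϑ := ϑ) θ (6 * ρ') (by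
    have e1 : (1 / 2 : ℝ) ^ θ = 2 * (1 - rr α) * ρ := by linarith
    have e2 : (3 / 2 : ℝ) ^ θ = 2 * rr α * ρ := by linarith
    rw [e1, e2]
    have : 3 * (2 * (1 - rr α) * ρ + 2 * rr α * ρ) = 6 * ρ := by ring
    rw [this]
    linarith)
  have hcA := cA_ge (Gd ϑ) (VV θ) (κ := ((6 : ℕ) : ℝ) * ρ') (by positivity) (ball N)
  refine ⟨cA (Gd ϑ) (VV θ) (((6 : ℕ) : ℝ) * ρ') (ball N), by linarith, fun x => ?_⟩
  have h1 := distinct_le (Gd ϑ) (VV θ) (ρ := ρ') hρ'0 (VV_ge a1.le) (ball N) (fun y hy => by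
    rw [mem_ball, not_le] at hy
    push_cast
    exact hN y hy) ⌈α * Real.log (2 + |(x : ℝ)|)⌉₊ x
  refine h1.trans (ENNReal.ofReal_le_ofReal ?_)
  rw [mul_assoc]
  apply mul_le_mul_of_nonneg_left _ (by linarith)
  have hx0 : (0 : ℝ) < 2 + |(x : ℝ)| := by positivity
  have hx1 : (1 : ℝ) ≤ 2 + |(x : ℝ)| := by linarith [abs_nonneg (x : ℝ)]
  have h2 : VV θ x ≤ (2 + |(x : ℝ)|) ^ θ := by
    unfold VV
    exact Real.rpow_le_rpow (by positivity) (by linarith) a1.le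
  have h3 := rpow_decay (C := α) hρ'0 hρ'1 hx0
  calc VV θ x * ρ' ^ ⌈α * Real.log (2 + |(x : ℝ)|)⌉₊
      ≤ (2 + |(x : ℝ)|) ^ θ * (2 + |(x : ℝ)|) ^ (α * Real.log ρ') :=
        mul_le_mul h2 h3 (by positivity) (by positivity)
    _ = (2 + |(x : ℝ)|) ^ (θ + α * Real.log ρ') := by rw [← Real.rpow_add hx0]
    _ ≤ _ := by
        apply Real.rpow_le_rpow_of_exponent_le hx1
        rw [hlogρ']
        have h4 : α * t ≤ η := by
          rw [le_div_iff₀ hα0] at ht1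
          linarith
        linarith

end Pool.Agent.Q247.RD
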